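import Pool.Agent.Lib.MP_28303a_al.TW.Lemmas

/-! # CHEX: chains of pairs expand to chains with the same stabilizer -/

set_option autoImplicit false
set_option linter.unusedSectionVars false

namespace Pool.Agent.NegK.TW.H76

universe u v w

open MulAction

variable {Γ : Type u} [Group Γ] {D : Type u} [MulAction Γ D]

theorem mem_stabChain {l : ℕ} {c : ℕ → D} {g : Γ} :
    g ∈ stabChain Γ l c ↔ ∀ j ≤ l, g ∈ stabilizer Γ (c j) := by
  rw [stabChain, Subgroup.mem_iInf]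
  constructor
  · intro h j hj
    exact h ⟨j, by omega⟩
  · intro h j
    exact h j (by omega)

theorem stabChain_zero (c : ℕ → D) : stabChain Γ 0 c = stabilizer Γ (c 0) := by
  ext g
  rw [mem_stabChain]
  constructor
  · intro h; exact h 0 le_rfl
  · intro h j hj
    rw [Nat.le_zero.1 hj]
    exact h

theorem stabChain_succ (l : ℕ) (c : ℕ → D) :
    stabChain Γ (l + 1) c = stabChain Γ l c ⊓ stabilizer Γ (c (l + 1)) := by
  ext g
  rw [Subgroup.mem_inf, mem_stabChain, mem_stabChain]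
  constructor
  · intro h
    exact ⟨fun j hj => h j (by omega), h _ le_rfl⟩
  · rintro ⟨h1, h2⟩ j hj
    rcases Nat.le_succ_iff.1 hj with h | h
    · exact h1 j h
    · rw [h]; exact h2

/-- Chains with their stabilizers. -/
def Pth (R : GRel Γ D) (l : ℕ) (a b : D) (S : Subgroup Γ) : Prop :=
  ∃ c : ℕ → D, c 0 = a ∧ c l = b ∧ (∀ j < l, R.R (c j) (c (j + 1))) ∧ stabChain Γ l c = S

theorem Pth.snoc {R : GRel Γ D} {l : ℕ} {a b b' : D} {S : Subgroup Γ} (h : Pth R l a b S)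
    (hb : R.R b b') : Pth R (l + 1) a b' (S ⊓ stabilizer Γ b') := by
  obtain ⟨c, h0, hl, hc, hS⟩ := h
  obtain ⟨c', e1, e2⟩ : ∃ c' : ℕ → D, (∀ j ≤ l, c' j = c j) ∧ c' (l + 1) = b' :=
    ⟨fun j => if j ≤ l then c j else b', fun j hj => if_pos hj, if_neg (by omega)⟩
  refine ⟨c', ?_, e2, ?_, ?_⟩
  · rw [e1 0 (Nat.zero_le l)]
    exact h0
  · intro j hj
    rcases Nat.lt_succ_iff_lt_or_eq.1 hj with h | h
    · rw [e1 j (by omega), e1 (j + 1) (by omega)]
      exact hc j h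
    · rw [h, e1 l le_rfl, e2, hl]
      exact hb
  · rw [stabChain_succ, e2]
    have h1 : stabChain Γ l c' = S := by
      rw [← hS]
      ext g
      rw [mem_stabChain, mem_stabChain]
      exact ⟨fun h j hj => e1 j hj ▸ h j hj, fun h j hj => (e1 j hj).symm ▸ h j hj⟩
    rw [h1]

theorem Pth.le {R : GRel Γ D} {l : ℕ} {a b : D} {S : Subgroup Γ} (h : Pth R l a b S) :
    S ≤ stabilizer Γ b := by
  obtain ⟨c, h0, hl, hc, rfl⟩ := h
  intro g hg
  rw [← hl]
  exact mem_stabChain.1 hg l le_rfl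

theorem Pth.extend {R R₀ : GRel Γ D}
    (hR : ∀ a b, R₀.R a b → R.R a b ∧ stabilizer Γ a = stabilizer Γ b) {l : ℕ} {a b b' : D}
    {S : Subgroup Γ} (h : Pth R l a b S) (hb : Relation.ReflTransGen R₀.R b b') :
    ∃ l', l ≤ l' ∧ Pth R l' a b' S := by
  induction hb with
  | refl => exact ⟨l, le_rfl, h⟩
  | tail _ h2 ih =>
    obtain ⟨l', hl', h'⟩ := ih
    obtain ⟨h3, h4⟩ := hR _ _ h2
    refine ⟨l' + 1, by omega, ?_⟩
    have h5 := h'.snoc h3
    rwa [inf_eq_left.2 (h4 ▸ h'.le)] at h5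

theorem chex : ChexStatement.{u} := by
  intro Γ D _ _ R R₀ R₁ h0 h1 l p hp
  have key : ∀ l : ℕ, (∀ j < l, (nextRel R₀ R₁).R (p j) (p (j + 1))) →
      ∃ l', l + 1 ≤ l' ∧ Pth R l' (p 0).fst (p l).snd (stabChain Γ l p) := by
    intro l
    induction l with
    | zero =>
      intro _
      refine ⟨1, le_rfl, ?_⟩
      have e0 : Pth R 0 (p 0).fst (p 0).fst (stabilizer Γ (p 0).fst) :=
        ⟨fun _ => (p 0).fst, rfl, rfl, fun j hj => absurd hj (by omega), stabChain_zero _⟩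
      have e1 := e0.snoc (h1 _ _ (p 0).rel)
      rwa [stabChain_zero, stab_prs]
    | succ l ih =>
      intro hp
      obtain ⟨l', hl', h'⟩ := ih fun j hj => hp j (by omega)
      obtain ⟨l'', hl'', h''⟩ := h'.extend h0 (hp l (by omega))
      refine ⟨l'' + 1, by omega, ?_⟩
      have e1 := h''.snoc (h1 _ _ (p (l + 1)).rel)
      rwa [stabChain_succ, stab_prs, ← inf_assoc, inf_eq_left.2 h''.le]
  obtain ⟨l', hl', c, -, -, hc, hS⟩ := key l hp
  exact ⟨l', c, hl', hc, hS⟩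

end Pool.Agent.NegK.TW.H76
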