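import Pool.Agent.Lib.MP_28303a_al.TW.Lemmas

/-! # ES: elimination of a relation -/

set_option autoImplicit false
set_option linter.unusedSectionVars false

namespace Pool.Agent.NegK.TW.H76

universe u v w

open Matrix MonoidAlgebra

section dp

variable {k : Type u} [Ring k] {Γ : Type u} [Group Γ] {D : Type u} [MulAction Γ D]
variable {J : Type} [Fintype J]

/-- All iterated components of `v` of length `≥ d - n` vanish. -/
def Dp (dg : J → D) (μ : Matrix J J (MonoidAlgebra k Γ)) (d n : ℕ)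
    (v : J → MonoidAlgebra k Γ) : Prop :=
  ∀ (c : D) (m : List D), d ≤ m.length + n → itc dg μ m (res dg {c} v) = 0

variable {dg : J → D} {μ : Matrix J J (MonoidAlgebra k Γ)} {d : ℕ}

theorem Dp.zero {n : ℕ} : Dp dg μ d n (0 : J → MonoidAlgebra k Γ) := by
  intro c m _
  rw [map_zero, itc_zero]

theorem Dp.add {n : ℕ} {v w : J → MonoidAlgebra k Γ} (hv : Dp dg μ d n v) (hw : Dp dg μ d n w) :
    Dp dg μ d n (v + w) := by
  intro c m hm
  rw [map_add, itc_add, hv c m hm, hw c m hm, add_zero]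

theorem Dp.sum {n : ℕ} {α : Type*} (s : Finset α) {v : α → J → MonoidAlgebra k Γ}
    (hv : ∀ a ∈ s, Dp dg μ d n (v a)) : Dp dg μ d n (∑ a ∈ s, v a) := by
  intro c m hm
  rw [map_sum, itc_sum]
  exact Finset.sum_eq_zero fun a ha => hv a ha c m hm

theorem Dp.res {n : ℕ} {v : J → MonoidAlgebra k Γ} (hv : Dp dg μ d n v) (S : Set D) :
    Dp dg μ d n (TW.res dg S v) := by
  intro c m hm
  rw [res_res]
  by_cases hc : c ∈ S
  · rw [Set.inter_eq_left.2 (Set.singleton_subset_iff.2 hc)]
    exact hv c m hm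
  · have : ({c} : Set D) ∩ S = ∅ := by
      rw [Set.singleton_inter_eq_empty]
      exact hc
    rw [this, res_empty, itc_zero]

theorem Dp.mono {n n' : ℕ} (h : n ≤ n') {v : J → MonoidAlgebra k Γ} (hv : Dp dg μ d n' v) :
    Dp dg μ d n v := fun c m hm => hv c m (by omega)

theorem Dp.vecMul {n : ℕ} {v : J → MonoidAlgebra k Γ} (hv : Dp dg μ d n v) :
    Dp dg μ d (n + 1) (v ᵥ* μ) := by
  intro c m hm
  rw [← itc_cons]
  obtain ⟨F, hF⟩ := exists_degrees dg v
  rw [← hF.sum_res, itc_sum]
  refine Finset.sum_eq_zero fun c' _ => hv c' (c :: m) ?_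
  rw [List.length_cons]
  omega

theorem Dp.vecMul_part {n : ℕ} {R : D → D → Prop} (hR : Invar Γ R) {v : J → MonoidAlgebra k Γ}
    (hv : Dp dg μ d n v) : Dp dg μ d (n + 1) (v ᵥ* part dg dg R μ) := by
  obtain ⟨F, hF⟩ := exists_degrees dg v
  rw [← hF.sum_res, Matrix.sum_vecMul]
  refine Dp.sum _ fun c _ => ?_
  rw [TW.vecMul_part hR μ (spt_res dg {c} v)]
  exact ((hv.res {c}).vecMul).res _

theorem Dp.of_chainNil (h : ChainNil dg μ d) (v : J → MonoidAlgebra k Γ) : Dp dg μ d 0 v :=
  fun c m hm => h.of_le m (by omega) _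

theorem Dp.eq_zero {v : J → MonoidAlgebra k Γ} (h : Dp dg μ d d v) : v = 0 := by
  refine eq_of_res (dg := dg) fun c => ?_
  have := h c [] (by simp)
  rw [itc_nil] at this
  rw [this, map_zero]

theorem Dp.pow_part [DecidableEq J] {R : D → D → Prop} (hR : Invar Γ R) (i : ℕ) :
    ∀ {n : ℕ} {v : J → MonoidAlgebra k Γ}, Dp dg μ d n v →
      Dp dg μ d (n + i) (v ᵥ* (part dg dg R μ) ^ i) := by
  induction i with
  | zero =>
    intro n v hv
    rw [pow_zero, Matrix.vecMul_one]
    exact hv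
  | succ i ih =>
    intro n v hv
    rw [pow_succ, ← Matrix.vecMul_vecMul]
    exact (ih hv).vecMul_part hR

end dp

section es

variable {k : Type u} [Ring k] {Γ : Type u} [Group Γ] {D : Type u} [MulAction Γ D]
variable {J : Type} [Fintype J] [DecidableEq J]

/-- The index set of the pairs. -/
abbrev EsJ (μ : Matrix J J (MonoidAlgebra k Γ)) : Type :=
  Σ p : J × J, Fin (μ p.1 p.2).coeff.support.card

/-- The group element of an index. -/
noncomputable def esH (μ : Matrix J J (MonoidAlgebra k Γ)) (t : EsJ μ) : Γ :=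
  ((μ t.1.1 t.1.2).coeff.support.equivFin.symm t.2).1

theorem esH_ne (μ : Matrix J J (MonoidAlgebra k Γ)) (t : EsJ μ) :
    (μ t.1.1 t.1.2).coeff (esH μ t) ≠ 0 :=
  Finsupp.mem_support_iff.1 ((μ t.1.1 t.1.2).coeff.support.equivFin.symm t.2).2

/-- The first factor. -/
noncomputable def esA (μ : Matrix J J (MonoidAlgebra k Γ)) : Matrix J (EsJ μ) (MonoidAlgebra k Γ) :=
  fun i t => if i = t.1.1 then single 1 ((μ t.1.1 t.1.2).coeff (esH μ t)) else 0

/-- The second factor. -/
noncomputable def esB (μ : Matrix J J (MonoidAlgebra k Γ)) : Matrix (EsJ μ) J (MonoidAlgebra k Γ) :=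
  fun t j => if t.1.2 = j then single (esH μ t) 1 else 0

theorem esA_mul_esB (μ : Matrix J J (MonoidAlgebra k Γ)) : esA μ * esB μ = μ := by
  ext1 i j
  rw [Matrix.mul_apply, Fintype.sum_sigma, Fintype.sum_prod_type]
  rw [Finset.sum_eq_single i, Finset.sum_eq_single j]
  · have h2 := Equiv.sum_comp (μ i j).coeff.support.equivFin.symm
      (fun g : {x // x ∈ (μ i j).coeff.support} =>
          (single (g : Γ) ((μ i j).coeff g) : MonoidAlgebra k Γ))
    refine Eq.trans (Finset.sum_congr rfl fun s _ => ?_) (h2.trans ?_)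
    · simp only [esA, esB, if_true]
      rw [MonoidAlgebra.single_mul_single, one_mul, mul_one]
      rfl
    · rw [Finset.sum_coe_sort (μ i j).coeff.support
        (fun g => (single g ((μ i j).coeff g) : MonoidAlgebra k Γ))]
      exact sum_single_coeff (μ i j)
  · intro j' _ hj
    refine Finset.sum_eq_zero fun s _ => ?_
    simp only [esB, if_neg hj, mul_zero]
  · intro h
    exact absurd (Finset.mem_univ j) h
  · intro i' _ hi
    refine Finset.sum_eq_zero fun j' _ => Finset.sum_eq_zero fun s _ => ?_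
    simp only [esA, if_neg (Ne.symm hi), zero_mul]
  · intro h
    exact absurd (Finset.mem_univ i) h

end es

theorem es : EsStatement.{u} := by
  intro k Γ D _ _ _ M _ χ R₀ R₁ hR J _ _ dg μ d hμ hd
  set μ₀ := part dg dg R₀.R μ with hμ₀
  set μ₁ := part dg dg R₁.R μ with hμ₁
  have hd₀ : ChainNil dg μ₀ d := by
    intro l hl x
    have key : ∀ (l : List D) (n : ℕ) (x : J → MonoidAlgebra k Γ), Dp dg μ d n x →
        Dp dg μ d (n + l.length) (itc dg μ₀ l x) := by
      intro l
      induction l with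
      | nil => intro n x hx; exact hx
      | cons c l ih =>
        intro n x hx
        rw [itc_cons]
        have h1 := ih (n + 1) _ ((hx.vecMul_part R₀.inv).res {c})
        rw [List.length_cons]
        have e : n + (l.length + 1) = n + 1 + l.length := by omega
        rw [e]
        exact h1
    have h2 := key l 0 x (Dp.of_chainNil hd x)
    rw [zero_add, hl] at h2
    exact h2.eq_zero
  refine ⟨hd₀, ?_⟩
  -- the decomposition of `μ`
  have hsum : μ = μ₀ + μ₁ := by
    ext1 i j
    rw [Matrix.add_apply, hμ₀, hμ₁]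
    ext g
    rw [MonoidAlgebra.coeff_add, Finsupp.add_apply]
    by_cases h0 : R₀.R (dg i) (g • dg j)
    · have h1 : ¬ R₁.R (dg i) (g • dg j) := hR _ _ h0
      have e0 : (part dg dg R₀.R μ i j).coeff g = (μ i j).coeff g :=
        fil_pos (show g ∈ {h | R₀.R (dg i) (h • dg j)} from h0) _
      have e1 : (part dg dg R₁.R μ i j).coeff g = 0 :=
        fil_neg (show g ∉ {h | R₁.R (dg i) (h • dg j)} from h1) _
      rw [e0, e1, add_zero]
    · have e0 : (part dg dg R₀.R μ i j).coeff g = 0 :=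
        fil_neg (show g ∉ {h | R₀.R (dg i) (h • dg j)} from h0) _
      by_cases h1 : R₁.R (dg i) (g • dg j)
      · have e1 : (part dg dg R₁.R μ i j).coeff g = (μ i j).coeff g :=
          fil_pos (show g ∈ {h | R₁.R (dg i) (h • dg j)} from h1) _
        rw [e0, e1, zero_add]
      · have e1 : (part dg dg R₁.R μ i j).coeff g = 0 :=
          fil_neg (show g ∉ {h | R₁.R (dg i) (h • dg j)} from h1) _
        rw [e0, e1, add_zero]
        by_contra hc
        exact (hμ i j g hc).elim h0 h1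
  -- the inverse of `1 - μ₀`
  let κ : Matrix J J (MonoidAlgebra k Γ) := ∑ i ∈ Finset.range d, μ₀ ^ i
  have hκ1 : (1 - μ₀) * κ = 1 := by
    rw [mul_neg_geom_sum, hd₀.pow_eq_zero, sub_zero]
  have hκ2 : κ * (1 - μ₀) = 1 := by
    rw [geom_sum_mul_neg, hd₀.pow_eq_zero, sub_zero]
  have hpow : ∀ i : ℕ, Sup dg dg (Relation.ReflTransGen R₀.R) (μ₀ ^ i) := by
    intro i
    induction i with
    | zero =>
      rw [pow_zero]
      exact (grd_one dg).mono fun a b h => h ▸ Relation.ReflTransGen.refl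
    | succ i ih =>
      rw [pow_succ]
      exact Sup.mul R₀.inv (fun a b c h1 h2 => h1.tail h2) ih (sup_part dg dg R₀.R μ)
  have hκS : Sup dg dg (Relation.ReflTransGen R₀.R) κ := by
    have : ∀ s : Finset ℕ, Sup dg dg (Relation.ReflTransGen R₀.R) (∑ i ∈ s, μ₀ ^ i) := by
      intro s
      classical
      induction s using Finset.induction_on with
      | empty => rw [Finset.sum_empty]; exact Sup.zero
      | insert a s ha ih => rw [Finset.sum_insert ha]; exact (hpow a).add ih
    exact this _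
  have hκD : ∀ (n : ℕ) (v : J → MonoidAlgebra k Γ), Dp dg μ d n v → Dp dg μ d n (v ᵥ* κ) := by
    intro n v hv
    have : v ᵥ* κ = ∑ i ∈ Finset.range d, v ᵥ* μ₀ ^ i := by
      rw [Matrix.vecMul_sum]
    rw [this]
    exact Dp.sum _ fun i _ => (hv.pow_part R₀.inv i).mono (Nat.le_add_right _ _)
  -- the pairs
  have hrel : ∀ t : EsJ μ₁, R₁.R (dg t.1.1) (esH μ₁ t • dg t.1.2) := fun t =>
    (sup_part dg dg R₁.R μ) _ _ _ (esH_ne μ₁ t)
  let dg' : EsJ μ₁ → Prs R₁ := fun t => ⟨dg t.1.1, esH μ₁ t • dg t.1.2, hrel t⟩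
  let a := esA μ₁
  let b := esB μ₁
  have hab : a * b = μ₁ := esA_mul_esB μ₁
  have ha : Sup dg dg' (fun c p => p.fst = c) a := by
    intro i t g hg
    simp only [a, esA] at hg
    by_cases hi : i = t.1.1
    · rw [if_pos hi] at hg
      have hg1 : g = 1 := coeff_single_ne hg
      rw [hg1, one_smul, hi]
    · rw [if_neg hi] at hg
      exact absurd rfl hg
  have hb : Sup dg' dg (fun p c => c = p.snd) b := by
    intro t j g hg
    simp only [b, esB] at hg
    by_cases hj : t.1.2 = j
    · rw [if_pos hj] at hg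
      have hg1 : g = esH μ₁ t := coeff_single_ne hg
      rw [hg1, ← hj]
    · rw [if_neg hj] at hg
      exact absurd rfl hg
  have invA : Invar Γ (fun (c : D) (p : Prs R₁) => p.fst = c) := fun g c p h => by
    show (g • p).fst = g • c
    rw [prs_smul_fst]
    exact congrArg _ h
  have invB : Invar Γ (fun (p : Prs R₁) (c : D) => c = p.snd) := fun g p c h => by
    show g • c = (g • p).snd
    rw [prs_smul_snd]
    exact congrArg _ h
  have invK : Invar Γ (Relation.ReflTransGen R₀.R) := by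
    intro g c c' h
    induction h with
    | refl => exact Relation.ReflTransGen.refl
    | tail _ h2 ih => exact ih.tail (R₀.inv g _ _ h2)
  let μ' := b * κ * a
  -- the main formula
  have main : ∀ (q : Prs R₁) (x : EsJ μ₁ → MonoidAlgebra k Γ),
      (res dg' {q} (x ᵥ* μ')) ᵥ* b =
        res dg {q.snd} ((res dg {q.fst} ((x ᵥ* b) ᵥ* κ)) ᵥ* μ) := by
    intro q x
    set y := (x ᵥ* b) ᵥ* κ with hy
    have e0 : x ᵥ* μ' = y ᵥ* a := by
      show x ᵥ* (b * κ * a) = _
      rw [hy, Matrix.vecMul_vecMul, Matrix.vecMul_vecMul, Matrix.mul_assoc]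
    set y1 := res dg {q.fst} y with hy1
    have e1 : res dg' {q} (y ᵥ* a) = res dg' {q} (y1 ᵥ* a) := by
      conv_lhs => rw [← res_compl dg {q.fst} y, Matrix.add_vecMul, map_add]
      have h1 : Spt dg' {p : Prs R₁ | p.fst ≠ q.fst} ((res dg {q.fst}ᶜ y) ᵥ* a) :=
        Sup.spt invA ha (fun c hc p hp => by
          show p.fst ≠ q.fst
          rw [hp]
          exact hc) (spt_res dg _ y)
      rw [h1.res_eq_zero (fun p hp hp' => hp (by rw [Set.mem_singleton_iff.1 hp'])), add_zero]
    have hs1 : Spt dg' {p : Prs R₁ | p.fst = q.fst} (y1 ᵥ* a) :=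
      Sup.spt invA ha (fun c hc p hp => by
        show p.fst = q.fst
        rw [hp]
        exact hc) (spt_res dg _ y)
    have e2 : (res dg' {q} (y1 ᵥ* a)) ᵥ* b = res dg {q.snd} ((y1 ᵥ* a) ᵥ* b) := by
      conv_rhs => rw [← res_compl dg' {q} (y1 ᵥ* a), Matrix.add_vecMul, map_add]
      have h1 : Spt dg {q.snd} ((res dg' {q} (y1 ᵥ* a)) ᵥ* b) :=
        Sup.spt invB hb (fun p hp c hc => by
          rw [Set.mem_singleton_iff.1 hp] at hc
          exact hc) (spt_res dg' _ _)
      have h2 : Spt dg' {p : Prs R₁ | p.snd ≠ q.snd} (res dg' {q}ᶜ (y1 ᵥ* a)) := by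
        intro t g hg
        have h3 := (spt_res dg' {q}ᶜ (y1 ᵥ* a)) t g hg
        have h4 := (hs1.res {q}ᶜ) t g hg
        intro h5
        exact h3 (Prs.ext h4 h5)
      have h3 : Spt dg {c : D | c ≠ q.snd} ((res dg' {q}ᶜ (y1 ᵥ* a)) ᵥ* b) :=
        Sup.spt invB hb (fun p hp c hc => by
          show c ≠ q.snd
          rw [hc]
          exact hp) h2
      rw [h1.res_eq, h3.res_eq_zero (S' := {q.snd}) (fun c hc hc' => hc hc'), add_zero]
    have e3 : (y1 ᵥ* a) ᵥ* b = res dg {c | R₁.R q.fst c} (y1 ᵥ* μ) := by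
      rw [Matrix.vecMul_vecMul, hab]
      exact TW.vecMul_part R₁.inv μ (spt_res dg {q.fst} y)
    rw [e0, e1, e2, e3, res_res, Set.inter_eq_left.2
      (show ({q.snd} : Set D) ⊆ {c | R₁.R q.fst c} from Set.singleton_subset_iff.2 q.rel)]
  have chain : ∀ (l : List (Prs R₁)) (n : ℕ) (x : EsJ μ₁ → MonoidAlgebra k Γ),
      Dp dg μ d n (x ᵥ* b) → Dp dg μ d (n + l.length) ((itc dg' μ' l x) ᵥ* b) := by
    intro l
    induction l with
    | nil => intro n x hx; exact hx
    | cons q l ih =>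
      intro n x hx
      rw [itc_cons, List.length_cons]
      have e : n + (l.length + 1) = n + 1 + l.length := by omega
      rw [e]
      refine ih (n + 1) _ ?_
      rw [main q x]
      exact (((hκD n _ hx).res _).vecMul).res _
  have hN : ChainNil dg' μ' (d + 1) := by
    intro l hl x
    rcases List.eq_nil_or_concat l with rfl | ⟨l', q, rfl⟩
    · simp at hl
    · rw [List.concat_eq_append] at hl ⊢
      rw [List.length_append, List.length_singleton] at hl
      have h1 := chain l' 0 x (Dp.of_chainNil hd _)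
      rw [zero_add, (by omega : l'.length = d)] at h1
      have h2 := h1.eq_zero
      rw [itc_append, itc_cons, itc_nil]
      have e : (itc dg' μ' l' x) ᵥ* μ' = (((itc dg' μ' l' x) ᵥ* b) ᵥ* κ) ᵥ* a := by
        show _ ᵥ* (b * κ * a) = _
        rw [Matrix.vecMul_vecMul, Matrix.vecMul_vecMul, Matrix.mul_assoc]
      rw [e, h2, Matrix.zero_vecMul, Matrix.zero_vecMul, map_zero]
  refine ⟨EsJ μ₁, inferInstance, inferInstance, dg', μ', ?_, hN, ?_⟩
  · have h1 : Sup dg' dg (fun (p : Prs R₁) c => Relation.ReflTransGen R₀.R p.snd c) (b * κ) :=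
      Sup.mul invK (fun p c c' h1 h2 => by rw [h1] at h2; exact h2) hb hκS
    exact Sup.mul invA (fun p c q h2 h3 => by
      show Relation.ReflTransGen R₀.R p.snd q.fst
      rw [h3]
      exact h2) h1 ha
  · have hu : IsUnit (1 - μ) := hd.isUnit
    have hu₀ : IsUnit (1 - μ₀) := hd₀.isUnit
    have hκu : IsUnit κ := isUnit_of_mul hκ2 hκ1
    have e1 : 1 - κ * μ₁ = κ * (1 - μ) := by
      have : 1 - μ = (1 - μ₀) - μ₁ := by rw [hsum]; abel
      rw [this, Matrix.mul_sub, hκ2]
    have hu1 : IsUnit (1 - κ * μ₁) := by rw [e1]; exact hκu.mul hu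
    have e2 : 1 - μ = (1 - μ₀) * (1 - κ * μ₁) := by
      rw [e1, ← Matrix.mul_assoc, hκ1, Matrix.one_mul]
    have e3 : 1 + (-(κ * a)) * b = 1 - κ * μ₁ := by
      rw [Matrix.neg_mul, Matrix.mul_assoc, hab]
      abel
    have e4 : 1 + b * (-(κ * a)) = 1 - μ' := by
      rw [Matrix.mul_neg, ← Matrix.mul_assoc]
      show _ = 1 - b * κ * a
      abel
    have hu2 : IsUnit (1 + (-(κ * a)) * b) := by rw [e3]; exact hu1
    have e5 := χ.one_add_swap hu2
    rw [e3, e4] at e5
    rw [e2, χ.mul _ _ hu₀ hu1, e5]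

end Pool.Agent.NegK.TW.H76
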