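import Pool.Agent.Lib.MP_28303a_al.TW.Lemmas

/-! # RECT: rectangular invertible matrices -/

set_option autoImplicit false

namespace Pool.Agent.NegK.TW.H76

universe u v w

open Matrix MonoidAlgebra

theorem rect : RectStatement.{u} := by
  intro A _ M _ χ ι κ _ _ _ _ P P' Q Q' h1 h2 h3 h4
  have key : ∀ α : Matrix κ κ A, IsUnit α → IsUnit (P * α * Q) ∧ χ.val (P * α * Q) = χ.val α := by
    intro α hα
    have e1 : 1 + Q * (P * (α - 1)) = α := by
      rw [← Matrix.mul_assoc, h2, Matrix.one_mul]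
      abel
    have e2 : 1 + (P * (α - 1)) * Q = P * α * Q := by
      rw [Matrix.mul_sub, Matrix.sub_mul, Matrix.mul_one, h1]
      abel
    have hα' : IsUnit (1 + Q * (P * (α - 1))) := by rw [e1]; exact hα
    have hu := isUnit_one_add_swap hα'
    have hv := χ.one_add_swap hα'
    rw [e2] at hu hv
    rw [e1] at hv
    exact ⟨hu, hv⟩
  have hu2 : IsUnit (Q' * P) := by
    refine isUnit_of_mul (β := Q * P') ?_ ?_
    · rw [← Matrix.mul_assoc, Matrix.mul_assoc Q' P Q, h1, Matrix.mul_one, h4]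
    · rw [← Matrix.mul_assoc, Matrix.mul_assoc Q P' Q', h3, Matrix.mul_one, h2]
  have e3 : P * (Q' * P) * Q = P * Q' := by
    rw [← Matrix.mul_assoc P Q' P, Matrix.mul_assoc, h1, Matrix.mul_one]
  obtain ⟨k1, k2⟩ := key _ hu2
  rw [e3] at k1 k2
  exact ⟨key, k1, hu2, k2⟩

end Pool.Agent.NegK.TW.H76
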