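import Pool.Agent.Lib.MP_28303a_al.TW.Lemmas

/-! # THBI: induction on the rank, THBO: induction on the length of the paths -/

set_option autoImplicit false
set_option linter.unusedSectionVars false

namespace Pool.Agent.NegK.TW.H76

universe u v w

open Matrix MonoidAlgebra

section

variable {Γ : Type u} [Group Γ] {D : Type u} [MulAction Γ D]

theorem stab_smul (g : Γ) (a : D) : MulAction.stabilizer Γ (g • a) =
    (MulAction.stabilizer Γ a).map (MulAut.conj g).toMonoidHom :=
  MulAction.stabilizer_smul_eq_stabilizer_map_conj g a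

theorem stab_smul_eq {a b : D} (h : MulAction.stabilizer Γ a = MulAction.stabilizer Γ b) (g : Γ) :
    MulAction.stabilizer Γ (g • a) = MulAction.stabilizer Γ (g • b) := by
  rw [stab_smul, stab_smul, h]

theorem stab_chain_one (a : D) : stabChain Γ 0 (fun _ => a) = MulAction.stabilizer Γ a := by
  ext g
  rw [stabChain, Subgroup.mem_iInf]
  exact ⟨fun h => h 0, fun h _ => h⟩

theorem stab_chain_pair (a b : D) : stabChain Γ 1 (fun j => if j = 0 then a else b) =
    MulAction.stabilizer Γ a ⊓ MulAction.stabilizer Γ b := by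
  ext g
  rw [stabChain, Subgroup.mem_iInf, Subgroup.mem_inf]
  constructor
  · intro h
    exact ⟨h 0, h 1⟩
  · rintro ⟨h1, h2⟩ j
    fin_cases j
    · exact h1
    · exact h2

theorem transGen_next {R R₀ R₁ : GRel Γ D} (h0 : ∀ a b, R₀.R a b → R.R a b)
    (h1 : ∀ a b, R₁.R a b → R.R a b) {p q : Prs R₁}
    (h : Relation.TransGen (nextRel R₀ R₁).R p q) : Relation.TransGen R.R p.fst q.fst := by
  have step : ∀ p q : Prs R₁, (nextRel R₀ R₁).R p q → Relation.TransGen R.R p.fst q.fst := by
    intro p q hpq
    have h2 : Relation.ReflTransGen R.R p.snd q.fst := by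
      have hpq' : Relation.ReflTransGen R₀.R p.snd q.fst := hpq
      exact Relation.ReflTransGen.mono h0 _ _ hpq'
    exact Relation.TransGen.head' (h1 _ _ p.rel) h2
  induction h with
  | single h => exact step _ _ h
  | tail _ h2 ih => exact ih.trans (step _ _ h2)

/-- The relation with constant stabilizers of positive rank. -/
def thR0 (R : GRel Γ D) (ρ : Subgroup Γ → ℕ) : GRel Γ D where
  R a b := R.R a b ∧ MulAction.stabilizer Γ a = MulAction.stabilizer Γ b ∧
    ∀ g : Γ, ρ (MulAction.stabilizer Γ (g • a)) ≠ 0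
  inv := by
    rintro h a b ⟨h1, h2, h3⟩
    refine ⟨R.inv h a b h1, stab_smul_eq h2 h, fun g => ?_⟩
    rw [← mul_smul]
    exact h3 _

/-- The rest. -/
def thR1 (R : GRel Γ D) (ρ : Subgroup Γ → ℕ) : GRel Γ D where
  R a b := R.R a b ∧ ¬ (thR0 R ρ).R a b
  inv := by
    rintro h a b ⟨h1, h2⟩
    refine ⟨R.inv h a b h1, fun h3 => h2 ?_⟩
    exact ((thR0 R ρ).inv.iff h a b).1 h3

end

theorem thbi (hFIN : FinStatement.{u}) (hRCI : RciStatement.{u}) (hES : EsStatement.{u})
    (hSTAT : StatStatement.{u}) (hLETT : Lett2Statement.{u}) (hCHEX : ChexStatement.{u}) :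
    ThbiStatement.{u} := by
  intro S hS k Γ _ _ hyp F M₀ ρ hρ M
  induction M with
  | zero =>
    intro D _ R hF hM hh J _ _ dg μ d hμ hd
    rw [gdet_val, hS]
    refine hFIN k Γ D J dg μ d hd fun j => ?_
    obtain ⟨g, hg⟩ := hM (dg j)
    have h1 : MulAction.stabilizer Γ (g • dg j) ∈ F := by
      have := hF 0 (fun _ => g • dg j) (fun j hj => absurd hj (by omega))
      rwa [stab_chain_one] at this
    have h2 := hRCI.2 k Γ D (g • dg j) g⁻¹ (hρ.coh _ h1 (Nat.le_zero.1 hg))
    rwa [inv_smul_smul] at h2
  | succ M ih =>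
    intro D _ R hF hM hh J _ _ dg μ d hμ hd
    have hF1 : ∀ c : D, MulAction.stabilizer Γ c ∈ F := fun c => by
      have := hF 0 (fun _ => c) (fun j hj => absurd hj (by omega))
      rwa [stab_chain_one] at this
    have hF2 : ∀ a b : D, R.R a b →
        MulAction.stabilizer Γ a ⊓ MulAction.stabilizer Γ b ∈ F := fun a b hab => by
      have := hF 1 (fun j => if j = 0 then a else b) (fun j hj => by
        have : j = 0 := by omega
        subst this
        simpa using hab)
      rwa [stab_chain_pair] at this
    have hdisj : ∀ a b, (thR0 R ρ).R a b → ¬ (thR1 R ρ).R a b := fun a b h h' => h'.2 h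
    have hμ' : Sup dg dg (fun a b => (thR0 R ρ).R a b ∨ (thR1 R ρ).R a b) μ :=
      hμ.mono fun a b h => by
        by_cases h0 : (thR0 R ρ).R a b
        · exact Or.inl h0
        · exact Or.inr ⟨h, h0⟩
    obtain ⟨hd0, J', _, _, dg', μ', h1, h2, h3⟩ :=
      hES (LaurentPolynomial k) Γ D (K0 (MonoidAlgebra k Γ)) (gdet S k Γ) (thR0 R ρ) (thR1 R ρ)
        hdisj J dg μ d hμ' hd
    rw [h3]
    have e1 : (gdet S k Γ).val (1 - part dg dg (thR0 R ρ).R μ) = 0 := by
      refine hSTAT (LaurentPolynomial k) Γ D (K0 (MonoidAlgebra k Γ)) (gdet S k Γ) (thR0 R ρ)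
        (fun a b h => h.2.1) J dg ?_ _ d (sup_part dg dg _ μ) hd0
      rintro m (rfl | ⟨a, b, hab, hst, hm⟩) hnil
      · rw [sub_zero, Det1.val_one]
      · refine hLETT S k Γ D J dg a b m hst hm hnil fun g hg => ?_
        have hne : ρ (MulAction.stabilizer Γ a) ≠ 0 := by
          obtain ⟨c, hac, -⟩ := Relation.TransGen.head'_iff.1 hab
          have := hac.2.2 1
          rwa [one_smul] at this
        refine hρ.nil _ (hF1 a) hne g (hh a g ?_) ?_
        · rw [hg]
          have hle : ∀ x y, (thR0 R ρ).R x y → R.R x y := fun _ _ h => h.1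
          exact Relation.TransGen.mono hle _ _ hab
        · rw [← stab_smul, hg, hst]
    have e2 : (gdet S k Γ).val (1 - μ') = 0 := by
      refine ih (Prs (thR1 R ρ)) (nextRel (thR0 R ρ) (thR1 R ρ)) ?_ ?_ ?_ J' dg' μ' (d + 1) h1 h2
      · intro l c hc
        obtain ⟨l', c', -, hc', hst⟩ := hCHEX Γ D R (thR0 R ρ) (thR1 R ρ)
          (fun a b h => ⟨h.1, h.2.1⟩) (fun a b h => h.1) l c hc
        rw [← hst]
        exact hF l' c' hc'
      · intro p
        have hpF : ∀ g : Γ, MulAction.stabilizer Γ (g • p) ∈ F := fun g => by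
          rw [stab_prs]
          exact hF2 _ _ (R.inv g _ _ p.rel.1)
        -- comparison with a larger stabilizer
        have low : ∀ x : D, MulAction.stabilizer Γ p < MulAction.stabilizer Γ x →
            ∃ g : Γ, ρ (MulAction.stabilizer Γ (g • p)) ≤ M := by
          intro x hx
          obtain ⟨g, hg⟩ := hM x
          refine ⟨g, ?_⟩
          have hlt : MulAction.stabilizer Γ (g • p) < MulAction.stabilizer Γ (g • x) := by
            rw [stab_smul, stab_smul]
            exact (Subgroup.map_lt_map_iff_of_injective (MulAut.conj g).injective).2 hx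
          by_cases h0 : ρ (MulAction.stabilizer Γ (g • x)) = 0
          · have := hρ.mono _ (hpF g) _ (hF1 _) hlt.le
            omega
          · have := hρ.strict _ (hpF g) _ (hF1 _) hlt h0
            omega
        have hst := stab_prs p
        by_cases hab : MulAction.stabilizer Γ p.fst = MulAction.stabilizer Γ p.snd
        · have hne : ¬ ∀ g : Γ, ρ (MulAction.stabilizer Γ (g • p.fst)) ≠ 0 := fun h =>
            p.rel.2 ⟨p.rel.1, hab, h⟩
          push Not at hne
          obtain ⟨g, hg⟩ := hne
          refine ⟨g, ?_⟩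
          have hle : MulAction.stabilizer Γ (g • p) ≤ MulAction.stabilizer Γ (g • p.fst) := by
            rw [stab_prs]
            exact inf_le_left
          have := hρ.mono _ (hpF g) _ (hF1 _) hle
          omega
        · by_cases hle : MulAction.stabilizer Γ p.fst ≤ MulAction.stabilizer Γ p.snd
          · refine low p.snd ?_
            rw [hst, inf_eq_left.2 hle]
            exact lt_of_le_of_ne hle hab
          · refine low p.fst ?_
            rw [hst]
            refine lt_of_le_of_ne inf_le_left fun h => hle ?_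
            exact inf_eq_left.1 h
      · intro p g hpg
        have := transGen_next (R := R) (R₀ := thR0 R ρ) (R₁ := thR1 R ρ) (fun a b h => h.1)
          (fun a b h => h.1) hpg
        exact hh p.fst g this
    rw [e1, e2, add_zero]

end Pool.Agent.NegK.TW.H76
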