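import Pool.Agent.Lib.MP_28303a_al.TW.Lemmas

/-! # THBO: induction on the length of the paths -/

set_option autoImplicit false
set_option linter.unusedSectionVars false

namespace Pool.Agent.NegK.TW.H76

universe u v w

open Matrix MonoidAlgebra

/-- The empty relation. -/
def emptyRel (Γ : Type u) [Group Γ] (D : Type u) [MulAction Γ D] : GRel Γ D where
  R _ _ := False
  inv := fun _ _ _ h => h

theorem part_empty {k Γ D : Type u} [Ring k] [Group Γ] [MulAction Γ D] {J : Type} [Fintype J]
    (dg : J → D) (μ : Matrix J J (MonoidAlgebra k Γ)) :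
    part dg dg (emptyRel Γ D).R μ = 0 := by
  ext1 i j
  refine fil_eq_zero fun g _ hg => ?_
  exact hg

theorem thbo (hES : EsStatement.{u}) (hCHEX : ChexStatement.{u}) (hTHBI : ThbiStatement.{u}) :
    ThboStatement.{u} := by
  intro S hS k Γ _ _ hyp F M₀ ρ hρ m
  induction m with
  | zero =>
    intro D _ R hF hh J _ _ dg μ d hμ hd
    refine hTHBI S hS k Γ hyp F M₀ ρ hρ M₀ D R (fun l c hc => hF l c (Nat.zero_le _) hc) ?_ hh J dg
      μ d hμ hd
    intro c
    refine ⟨1, hρ.le _ ?_⟩
    have h := hF 0 (fun _ => (1 : Γ) • c) le_rfl (fun j hj => absurd hj (by omega))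
    have e : stabChain Γ 0 (fun _ => (1 : Γ) • c) = MulAction.stabilizer Γ ((1 : Γ) • c) := by
      ext g
      rw [stabChain, Subgroup.mem_iInf]
      exact ⟨fun h => h 0, fun h _ => h⟩
    rwa [e] at h
  | succ m ih =>
    intro D _ R hF hh J _ _ dg μ d hμ hd
    obtain ⟨hd0, J', _, _, dg', μ', h1, h2, h3⟩ :=
      hES (LaurentPolynomial k) Γ D (K0 (MonoidAlgebra k Γ)) (gdet S k Γ) (emptyRel Γ D) R
        (fun a b h => h.elim) J dg μ d (hμ.mono fun a b h => Or.inr h) hd
    rw [h3, part_empty, sub_zero, Det1.val_one, zero_add]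
    refine ih (Prs R) (nextRel (emptyRel Γ D) R) ?_ ?_ J' dg' μ' (d + 1) h1 h2
    · intro l c hl hc
      obtain ⟨l', c', hl', hc', hst⟩ := hCHEX Γ D R (emptyRel Γ D) R
        (fun a b h => h.elim) (fun a b h => h) l c hc
      rw [← hst]
      exact hF l' c' (by omega) hc'
    · intro p g hpg
      refine hh p.fst g ?_
      have step : ∀ p q : Prs R, (nextRel (emptyRel Γ D) R).R p q → R.R p.fst q.fst := by
        intro p q hpq
        have hpq' : Relation.ReflTransGen (emptyRel Γ D).R p.snd q.fst := hpq
        rcases Relation.ReflTransGen.cases_head hpq' with h | ⟨c, h, -⟩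
        · rw [← h]
          exact p.rel
        · exact h.elim
      have key : ∀ q : Prs R, Relation.TransGen (nextRel (emptyRel Γ D) R).R p q →
          Relation.TransGen R.R p.fst q.fst := by
        intro q h
        induction h with
        | single h => exact Relation.TransGen.single (step _ _ h)
        | tail _ h2 ih => exact ih.tail (step _ _ h2)
      exact key _ hpg

end Pool.Agent.NegK.TW.H76
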